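import Pool.Agent.helper51.VF.SpecB
import Pool.Agent.helper8.QS.RON

/-!
# Row vf:PLV (MP_74cfa5_ag): the bound for the value of the equation
-/

set_option autoImplicit false

namespace Pool.Agent.VF

open Pool.Agent.PC Pool.Agent.QS

universe u

theorem PLV_num (p : ℕ) (hp : 1 ≤ p) (j j0 s x : ℤ) (hj : j0 ≤ j) (h : x < -(((p : ℤ) - 1) * j - s)) :
    x < s - ((p : ℤ) - 1) * j0 := by
  have h1 : (0 : ℤ) ≤ (p : ℤ) - 1 := by omega
  have h2 := mul_le_mul_of_nonneg_left hj h1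
  linarith

theorem PLV (hLGV : LGV_stmt.{u}) (hDSF : DSF_stmt.{u}) (hDUA : QS.DUA_stmt.{u})
    (hPYY : QS.PYY_stmt.{u}) (hYWV : QS.YWV_stmt.{u}) (hWTR : QS.WTR_stmt.{u}) : PLV_stmt.{u} := by
  intro k R A F K _ _ _ _ _ _ _ _ _ _ _ _ _ _ _ _ _ _ _ _ _ _ _ _ _ _ _ _ n p _ _ hFol x hx hfK hfF h2
    ω μ g hω hg hμ m _ hDisc t ht0 δ hδ hδL hD y φ hy hT w v hw0 hw1 hW j0 hj0
  have hpp : p.Prime := Fact.out
  have : CharP K p := charP_of_injective_algebraMap (algebraMap k K).injective p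
  have : Algebra.FinitePresentation k A := Algebra.Smooth.finitePresentation
  have : Algebra.FiniteType k A := inferInstance
  have : IsNoetherianRing A := Algebra.FiniteType.isNoetherianRing k A
  have : Algebra.FormallySmooth k A := Algebra.Smooth.formallySmooth
  have : Module.Finite F K := Module.finite_of_finrank_pos (by rw [hFol.2]; exact hpp.pos)
  have : Algebra.IsAlgebraic F K := Algebra.IsAlgebraic.of_finite F K
  have hmm : m.IsMaximal := inferInstance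
  have hmt : m ≠ ⊤ := hmm.ne_top
  obtain ⟨D, hDual⟩ := hDUA k A K n hfK m hmm y hy
  obtain ⟨hv1, hv2, hv3, hv4, -⟩ := hYWV k A K n m y φ hT w v hW
  have hv : DVal v := hW.1
  obtain ⟨T, Ψ, j, hFrob, hΨ, hj, hlog⟩ := hLGV k R A F K p hFol n (by omega) hfK hfF m y φ D hT
    hDual w v hW δ hδ hδL j0 hj0
  obtain ⟨hd1, hd2⟩ := hD D y T hFrob hDual.1 Ψ hΨ
  obtain ⟨𝔮, hqp, hqm, hq1, hq2⟩ := hPYY k A n m y φ hT 1
  have hy0q : y ⟨0, by omega⟩ ∈ 𝔮 := by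
    rw [hq1]
    exact Lib_inn_of_mem hmt (Ideal.subset_span ⟨⟨0, by omega⟩, by simp, rfl⟩)
  have hy00 : y ⟨0, by omega⟩ ≠ 0 := by
    intro h0
    apply (hv1 ⟨0, by omega⟩).1
    rw [h0, map_zero]
  have hgy0 : Ge v 1 (algebraMap A K (y ⟨0, by omega⟩)) := by
    right
    rw [(hv1 ⟨0, by omega⟩).2]
    exact_mod_cast hw0
  have hgy1 : Ge v 1 (algebraMap A K (y ⟨1, by omega⟩)) := by
    right
    rw [(hv1 ⟨1, by omega⟩).2]
    exact_mod_cast hw1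
  have hqb : 𝔮 ≠ ⊥ := by
    intro h0
    rw [h0] at hy0q
    exact hy00 hy0q
  have hqv : ∀ a ∈ 𝔮, Ge v 1 (algebraMap A K a) := by
    intro a ha
    rw [hq1, RON_set1 h2] at ha
    obtain ⟨s', hs', h3⟩ := ha
    rw [Ideal.mem_span_singleton'] at h3
    obtain ⟨c, hc⟩ := h3
    refine RON_val m hv hv4 s' a hs' 1 ?_
    rw [← hc, map_mul]
    have h4 := CON_ge_mul hv (hv3 c) hgy0
    rwa [zero_add] at h4
  have hqy1 : ∃ a : A, Ge v 1 (algebraMap A K a) ∧ a ∉ 𝔮 := by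
    refine ⟨y ⟨1, by omega⟩, hgy1, ?_⟩
    rw [hq2]
    intro h3
    have h4 := h3 (Finsupp.single ⟨1, by omega⟩ 1) (fun i hi => by
      rw [Finsupp.single_apply, if_neg]
      rintro rfl
      simp at hi)
    rw [hT.1, MvPowerSeries.coeff_X, if_pos rfl] at h4
    exact one_ne_zero h4
  have hTR := hWTR k A K n m y φ hT w v hW ⟨⟨0, by omega⟩, lt_of_lt_of_le one_pos hw0⟩
  constructor
  · obtain ⟨u, s, hs, hgu⟩ := hd1
    have h3 := hDSF k R A F K n p x hx Ψ hΨ.2.1 ω μ g hω hg hμ m hDisc t u s 1 hs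
      (by rw [one_mul]; exact hgu) v _ hv hv2 hv3 hv4 hTR 𝔮 hqp hqb hqv hqy1 hlog
    rw [Nat.cast_one, one_mul] at h3
    exact PLV_num p hpp.pos j j0 _ _ hj h3
  · intro hnl
    obtain ⟨u, s, hs, hgu⟩ := hd2 hnl
    have h3 := hDSF k R A F K n p x hx Ψ hΨ.2.1 ω μ g hω hg hμ m hDisc t u s p hs
      hgu v _ hv hv2 hv3 hv4 hTR 𝔮 hqp hqb hqv hqy1 hlog
    exact PLV_num p hpp.pos j j0 _ _ hj h3

end Pool.Agent.VF
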